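import Mathlib

/-! Reciprocals of Fermat polynomials are not divergences in characteristic `p ≡ 1 mod m`. -/

set_option autoImplicit false

namespace Pool.Agent.Q84.Fermat

open MvPolynomial

section

variable {F : Type*} [Field F] {p : ℕ} [hp : Fact p.Prime] [CharP F p] {m : ℕ}

/-- the Fermat polynomial -/
noncomputable def fermat (F : Type*) [CommRing F] (m n : ℕ) : MvPolynomial (Fin m) F :=
  ∑ i, X i ^ n

/-- the exponent with all entries `p - 1` -/
noncomputable def dd (p m : ℕ) : Fin m →₀ ℕ := Finsupp.equivFunOnFinite.symm fun _ => p - 1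

lemma dd_apply (p m : ℕ) (i : Fin m) : dd p m i = p - 1 := rfl

lemma fermat_homog (m n : ℕ) : (fermat F m n).IsHomogeneous n := by
  refine IsHomogeneous.sum _ _ _ fun i _ => ?_
  have := (isHomogeneous_X F i).pow n
  rwa [one_mul] at this

/-- the central coefficient -/
lemma coeff_fermat_pow (hm : 1 ≤ m) (hpm : m ∣ p - 1) :
    coeff (dd p m) (fermat F m m ^ (p - 1)) ≠ 0 := by
  classical
  obtain ⟨t, ht⟩ := hpm
  unfold fermat
  rw [Finset.sum_pow_eq_sum_piAntidiag, coeff_sum]
  have h1 : ∀ k ∈ Finset.piAntidiag (Finset.univ : Finset (Fin m)) (p - 1),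
      coeff (dd p m) ((Nat.multinomial Finset.univ k : MvPolynomial (Fin m) F) *
        ∏ i, (X i ^ m) ^ k i) =
      if k = (fun _ => t) then (Nat.multinomial (Finset.univ : Finset (Fin m)) (fun _ => t) : F)
        else 0 := by
    intro k _
    have h2 : ∏ i, ((X i : MvPolynomial (Fin m) F) ^ m) ^ k i =
        monomial (Finsupp.equivFunOnFinite.symm fun i => m * k i) 1 := by
      rw [monomial_eq, C_1, one_mul, Finsupp.prod_fintype _ _ (fun _ => pow_zero _)]
      refine Finset.prod_congr rfl fun i _ => ?_
      rw [← pow_mul]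
      rfl
    rw [h2, ← map_natCast (C : F →+* MvPolynomial (Fin m) F), coeff_C_mul, coeff_monomial]
    by_cases hk : k = fun _ => t
    · subst hk
      rw [if_pos rfl, if_pos, mul_one]
      ext i
      change m * t = p - 1
      exact ht.symm
    · rw [if_neg hk, if_neg, mul_zero]
      intro h
      apply hk
      funext i
      have h3 := DFunLike.congr_fun h i
      have h4 : m * k i = p - 1 := h3
      rw [ht] at h4
      exact Nat.eq_of_mul_eq_mul_left (by omega) h4
  rw [Finset.sum_congr rfl h1, Finset.sum_ite_eq', if_pos]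
  · intro h0
    rw [CharP.cast_eq_zero_iff F p] at h0
    have h3 := Nat.multinomial_spec (Finset.univ : Finset (Fin m)) (fun _ => t)
    have h4 : ∑ _i : Fin m, t = p - 1 := by simp [ht]
    rw [h4] at h3
    have h5 : p ∣ (p - 1).factorial := by
      rw [← h3]
      exact Dvd.dvd.mul_left h0 _
    rw [hp.out.dvd_factorial] at h5
    have := hp.out.pos
    omega
  · rw [Finset.mem_piAntidiag]
    refine ⟨by simp [ht], fun i _ => Finset.mem_univ i⟩

lemma pow_eq (R : MvPolynomial (Fin m) F) :
    R ^ p = ∑ β ∈ R.support, monomial (p • β) (coeff β R ^ p) := by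
  conv_lhs => rw [R.as_sum]
  rw [sum_pow_char]
  exact Finset.sum_congr rfl fun β _ => by rw [monomial_pow]

lemma coeff_prod (hm : 1 ≤ m) (hpm : m ∣ p - 1) (R : MvPolynomial (Fin m) F)
    (β₀ : Fin m →₀ ℕ) :
    coeff (p • β₀ + dd p m) (R ^ p * fermat F m m ^ (p - 1)) =
      coeff β₀ R ^ p * coeff (dd p m) (fermat F m m ^ (p - 1)) := by
  classical
  rw [pow_eq, Finset.sum_mul, coeff_sum]
  have hG : (fermat F m m ^ (p - 1)).IsHomogeneous (m * (p - 1)) := (fermat_homog m m).pow _
  have hp1 : 1 ≤ p := hp.out.pos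
  have h1 : ∀ β ∈ R.support, coeff (p • β₀ + dd p m)
      (monomial (p • β) (coeff β R ^ p) * fermat F m m ^ (p - 1)) =
      if β = β₀ then coeff β₀ R ^ p * coeff (dd p m) (fermat F m m ^ (p - 1)) else 0 := by
    intro β _
    rw [coeff_monomial_mul']
    by_cases hβ : β = β₀
    · subst hβ
      rw [if_pos rfl, if_pos (by
        intro i
        simp), add_tsub_cancel_left]
    · rw [if_neg hβ]
      split_ifs with hle
      · have h2 : coeff (p • β₀ + dd p m - p • β) (fermat F m m ^ (p - 1)) = 0 := by
          by_contra hne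
          have h3 : (p • β₀ + dd p m - p • β).degree = m * (p - 1) := by
            rw [Finsupp.degree_eq_weight_one]
            exact hG hne
          rw [Finsupp.degree_eq_sum] at h3
          have h4 : ∀ i, β i ≤ β₀ i := by
            intro i
            have h5 := hle i
            simp only [Finsupp.smul_apply, Finsupp.add_apply, smul_eq_mul, dd_apply] at h5
            by_contra hlt
            push Not at hlt
            have : p * (β₀ i + 1) ≤ p * β i := Nat.mul_le_mul_left p hlt
            rw [mul_add, mul_one] at this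
            omega
          obtain ⟨i₀, hi₀⟩ : ∃ i, β i < β₀ i := by
            by_contra hall
            push Not at hall
            apply hβ
            ext i
            exact le_antisymm (h4 i) (hall i)
          have h6 : ∀ i, p - 1 ≤ (p • β₀ + dd p m - p • β) i := by
            intro i
            simp only [Finsupp.coe_tsub, Pi.sub_apply, Finsupp.smul_apply, Finsupp.add_apply,
              smul_eq_mul, dd_apply]
            have : p * β i ≤ p * β₀ i := Nat.mul_le_mul_left p (h4 i)
            omega
          have h7 : p - 1 < (p • β₀ + dd p m - p • β) i₀ := by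
            simp only [Finsupp.coe_tsub, Pi.sub_apply, Finsupp.smul_apply, Finsupp.add_apply,
              smul_eq_mul, dd_apply]
            have : p * β i₀ < p * β₀ i₀ := (Nat.mul_lt_mul_left hp.out.pos).2 hi₀
            omega
          have h8 : ∑ _i : Fin m, (p - 1) < ∑ i, (p • β₀ + dd p m - p • β) i :=
            Finset.sum_lt_sum (fun i _ => h6 i) ⟨i₀, Finset.mem_univ _, h7⟩
          rw [Finset.sum_const, Finset.card_univ, Fintype.card_fin, smul_eq_mul] at h8
          omega
        rw [h2, mul_zero]
      · rfl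
  rw [Finset.sum_congr rfl h1, Finset.sum_ite_eq']
  split_ifs with h
  · rfl
  · rw [notMem_support_iff.1 h, zero_pow hp.out.ne_zero, zero_mul]

lemma coeff_div (H : Fin m → MvPolynomial (Fin m) F) (β₀ : Fin m →₀ ℕ) :
    coeff (p • β₀ + dd p m) (∑ i, pderiv i (H i)) = 0 := by
  rw [coeff_sum]
  refine Finset.sum_eq_zero fun i _ => ?_
  rw [coeff_pderiv]
  have hp1 : 1 ≤ p := hp.out.pos
  have h1 : (((p • β₀ + dd p m) i : ℕ) : F) + 1 = 0 := by
    have h2 : (p • β₀ + dd p m) i + 1 = p * (β₀ i + 1) := by
      simp only [Finsupp.smul_apply, Finsupp.add_apply, smul_eq_mul, dd_apply]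
      rw [mul_add, mul_one]
      omega
    have h3 : (((p • β₀ + dd p m) i + 1 : ℕ) : F) = 0 := by
      rw [h2, Nat.cast_mul, CharP.cast_eq_zero, zero_mul]
    rw [← h3]
    push_cast
    ring
  rw [h1, mul_zero]

theorem charP_main (hm : 1 ≤ m) (hpm : m ∣ p - 1) (P : Fin m → MvPolynomial (Fin m) F)
    (R : MvPolynomial (Fin m) F) (hR : R ≠ 0)
    (h : R ^ 2 = fermat F m m * ∑ i, (pderiv i (P i) * R - P i * pderiv i R)) : False := by
  obtain ⟨q, hq⟩ : ∃ q, p = q + 2 := ⟨p - 2, by have := hp.out.two_le; omega⟩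
  have hcast : ((q : F) + 2) = 0 := by
    have : ((p : ℕ) : F) = 0 := CharP.cast_eq_zero F p
    rw [hq] at this
    exact_mod_cast this
  have hC : ((q : MvPolynomial (Fin m) F) + 2) = 0 := by
    have := congrArg (C : F →+* MvPolynomial (Fin m) F) hcast
    rw [map_add, map_natCast, map_ofNat, map_zero] at this
    exact this
  have h1 : R ^ p = fermat F m m * ∑ i, pderiv i (P i * R ^ (p - 1)) := by
    have h2 : ∀ i, pderiv i (P i * R ^ (p - 1)) =
        R ^ q * (pderiv i (P i) * R - P i * pderiv i R) := by
      intro i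
      have h3 : p - 1 = q + 1 := by omega
      rw [h3, pderiv_mul, pderiv_pow, Nat.add_sub_cancel]
      push_cast
      linear_combination (P i * R ^ q * pderiv i R) * hC
    rw [Finset.sum_congr rfl fun i _ => h2 i, ← Finset.mul_sum, hq, pow_add, h]
    ring
  have h4 : ∀ G : MvPolynomial (Fin m) F, ∀ i, pderiv i (fermat F m m ^ p * G) =
      fermat F m m ^ p * pderiv i G := by
    intro G i
    rw [pderiv_mul, pderiv_pow, CharP.cast_eq_zero, zero_mul, zero_mul, zero_mul, zero_add]
  have h5 : R ^ p * fermat F m m ^ (p - 1) =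
      ∑ i, pderiv i (fermat F m m ^ p * (P i * R ^ (p - 1))) := by
    rw [Finset.sum_congr rfl fun i _ => h4 _ i, ← Finset.mul_sum, h1]
    have h6 : fermat F m m ^ p = fermat F m m * fermat F m m ^ (p - 1) := by
      rw [← pow_succ', Nat.sub_add_cancel hp.out.pos]
    rw [h6]
    ring
  obtain ⟨β₀, hβ₀⟩ := ne_zero_iff.1 hR
  have h7 := coeff_prod hm hpm R β₀
  rw [h5, coeff_div] at h7
  exact mul_ne_zero (pow_ne_zero p hβ₀) (coeff_fermat_pow hm hpm) h7.symm

end

end Pool.Agent.Q84.Fermat
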