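import Mathlib
import Pool.Agent.Q84.Fermat.CharP
import Pool.Agent.Y162.HW.Spread

/-! Reciprocals of Fermat polynomials in characteristic zero. -/

set_option autoImplicit false

universe u

namespace Pool.Agent.Q84.Fermat

open MvPolynomial

section spread

variable {k : Type u} [Field k] [CharZero k] {m : ℕ}

lemma fermat_map {A B : Type*} [CommRing A] [CommRing B] (φ : A →+* B) (m n : ℕ) :
    MvPolynomial.map φ (fermat A m n) = fermat B m n := by
  simp [fermat]

theorem char_zero_main (hm : 1 ≤ m) (P : Fin m → MvPolynomial (Fin m) k)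
    (R : MvPolynomial (Fin m) k) (hR : R ≠ 0)
    (h : R ^ 2 = fermat k m m * ∑ i, (pderiv i (P i) * R - P i * pderiv i R)) : False := by
  classical
  let S : Finset k := R.coeffs ∪ Finset.univ.biUnion fun i => (P i).coeffs
  let A := Algebra.adjoin ℤ (S : Set k)
  have hft : Algebra.FiniteType ℤ A := by
    rw [← Subalgebra.fg_iff_finiteType]
    exact Subalgebra.fg_adjoin_finset S
  let j : A →+* k := A.val.toRingHom
  have hj : Function.Injective j := Subtype.val_injective
  have hrange : Set.range j = (A : Set k) := Subtype.range_coe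
  have hRr : R ∈ Set.range (MvPolynomial.map (σ := Fin m) j) := by
    rw [mem_range_map_iff_coeffs_subset, hrange]
    intro x hx
    exact Algebra.subset_adjoin (Finset.mem_coe.2 (Finset.mem_union_left _ (Finset.mem_coe.1 hx)))
  have hPr : ∀ i, P i ∈ Set.range (MvPolynomial.map (σ := Fin m) j) := by
    intro i
    rw [mem_range_map_iff_coeffs_subset, hrange]
    intro x hx
    exact Algebra.subset_adjoin (Finset.mem_coe.2 (Finset.mem_union_right _
      (Finset.mem_biUnion.2 ⟨i, Finset.mem_univ i, Finset.mem_coe.1 hx⟩)))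
  obtain ⟨R', hR'⟩ := hRr
  choose P' hP' using hPr
  have hmapinj := MvPolynomial.map_injective (σ := Fin m) j hj
  have hR'0 : R' ≠ 0 := by
    rintro rfl
    rw [map_zero] at hR'
    exact hR hR'.symm
  have h' : R' ^ 2 = fermat A m m * ∑ i, (pderiv i (P' i) * R' - P' i * pderiv i R') := by
    apply hmapinj
    rw [map_pow, map_mul, map_sum, fermat_map, hR']
    rw [h]
    congr 1
    refine Finset.sum_congr rfl fun i _ => ?_
    rw [map_sub, map_mul, map_mul, ← pderiv_map, ← pderiv_map, hR', hP']
  obtain ⟨β, hβ⟩ := ne_zero_iff.1 hR'0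
  have hint : Function.Injective (algebraMap ℤ A) := by
    intro a b hab
    have h1 := congrArg j hab
    simp only [map_intCast, eq_intCast] at h1
    exact_mod_cast h1
  obtain ⟨c, hc, hcP⟩ := Pool.Agent.Y162.HW.chev (algebraMap ℤ A) hint
    ((RingHom.finiteType_algebraMap).2 hft) (coeff β R') hβ
  obtain ⟨p, hp, hpc, hpm⟩ := Nat.exists_prime_gt_modEq_one (k := m) c.natAbs (by omega)
  have hpfact : Fact p.Prime := ⟨hp⟩
  have hpI : Prime (p : ℤ) := Nat.prime_iff_prime_int.1 hp
  have hP : (Ideal.span {(p : ℤ)}).IsPrime :=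
    (Ideal.span_singleton_prime hpI.ne_zero).2 hpI
  have hcp : c ∉ Ideal.span {(p : ℤ)} := by
    rw [Ideal.mem_span_singleton]
    intro hdvd
    have h1 : p ∣ c.natAbs := Int.natCast_dvd.1 hdvd
    have h2 := Nat.le_of_dvd (Int.natAbs_pos.2 hc) h1
    omega
  obtain ⟨Q, hQ, hQp, hQβ⟩ := hcP _ hP hcp
  let F := FractionRing (A ⧸ Q)
  let φ : A →+* F := (algebraMap (A ⧸ Q) F).comp (Ideal.Quotient.mk Q)
  have hφ : ∀ x, φ x = 0 ↔ x ∈ Q := by
    intro x
    change algebraMap (A ⧸ Q) F (Ideal.Quotient.mk Q x) = 0 ↔ _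
    rw [map_eq_zero_iff _ (IsFractionRing.injective (A ⧸ Q) F), Ideal.Quotient.eq_zero_iff_mem]
  have hchar : CharP F p := by
    have h1 : ((p : ℕ) : F) = 0 := by
      have h2 : φ (algebraMap ℤ A (p : ℤ)) = 0 := by
        rw [hφ]
        have : (p : ℤ) ∈ Q.comap (algebraMap ℤ A) := by
          rw [hQp]
          exact Ideal.mem_span_singleton_self _
        exact this
      simpa using h2
    exact (CharP.charP_iff_prime_eq_zero hp).2 h1
  have hRF : MvPolynomial.map φ R' ≠ 0 := by
    intro h0
    have h1 := congrArg (coeff β) h0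
    rw [coeff_map, coeff_zero, hφ] at h1
    exact hQβ h1
  have hpm' : m ∣ p - 1 := (Nat.modEq_iff_dvd' hp.one_lt.le).1 hpm.symm
  refine charP_main (F := F) (p := p) hm hpm' (fun i => MvPolynomial.map φ (P' i))
    (MvPolynomial.map φ R') hRF ?_
  rw [← map_pow, h', map_mul, map_sum, fermat_map]
  congr 1
  refine Finset.sum_congr rfl fun i _ => ?_
  rw [map_sub, map_mul, map_mul, ← pderiv_map, ← pderiv_map]

end spread

section field

variable (k : Type u) [Field k] (m : ℕ)

/-- The field of rational functions `k(x_1, ..., x_m)`. -/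
abbrev RF : Type u := FractionRing (MvPolynomial (Fin m) k)

/-- The variable `x_i` as a rational function. -/
noncomputable def xv (i : Fin m) : RF k m := algebraMap (MvPolynomial (Fin m) k) (RF k m) (X i)

variable {k m}

/-- The derivations `D_1, ..., D_m` of `k(x_1, ..., x_m)` over `k` are the partial derivations. -/
def ArePartials (D : Fin m → Derivation k (RF k m) (RF k m)) : Prop :=
  ∀ i j, D i (xv k m j) = if i = j then 1 else 0

lemma exists_partials : ∃ D : Fin m → Derivation k (RF k m) (RF k m), ArePartials D := by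
  classical
  have h2 : Algebra.FormallyEtale (MvPolynomial (Fin m) k) (RF k m) :=
    Algebra.FormallyEtale.of_isLocalization (nonZeroDivisors (MvPolynomial (Fin m) k))
  let e := KaehlerDifferential.tensorKaehlerEquivOfFormallyEtale k (MvPolynomial (Fin m) k) (RF k m)
  let d : Fin m → Derivation k (MvPolynomial (Fin m) k) (RF k m) := fun i =>
    MvPolynomial.mkDerivation k (fun j => if i = j then 1 else 0)
  let l : ∀ _ : Fin m, Ω[MvPolynomial (Fin m) k⁄k] →ₗ[MvPolynomial (Fin m) k] RF k m :=
    fun i => (d i).liftKaehlerDifferential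
  let Λ : ∀ _ : Fin m, Ω[RF k m⁄k] →ₗ[RF k m] RF k m := fun i =>
    (LinearMap.liftBaseChange (RF k m) (l i)).comp e.symm.toLinearMap
  refine ⟨fun i => (Λ i).compDer (KaehlerDifferential.D k (RF k m)), fun i j => ?_⟩
  change LinearMap.liftBaseChange (RF k m) (l i) (e.symm (KaehlerDifferential.D k (RF k m)
    (xv k m j))) = _
  unfold xv
  rw [KaehlerDifferential.tensorKaehlerEquivOfFormallyEtale_symm_D_algebraMap]
  simp [l, d]

variable {D : Fin m → Derivation k (RF k m) (RF k m)} (hD : ArePartials D)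

include hD in
lemma D_algebraMap (i : Fin m) (g : MvPolynomial (Fin m) k) :
    D i (algebraMap _ (RF k m) g) = algebraMap _ (RF k m) (pderiv i g) := by
  classical
  induction g using MvPolynomial.induction_on with
  | C a =>
    rw [pderiv_C, map_zero]
    have : algebraMap (MvPolynomial (Fin m) k) (RF k m) (C a) = algebraMap k (RF k m) a := by
      rw [IsScalarTower.algebraMap_apply k (MvPolynomial (Fin m) k) (RF k m)]
      rfl
    rw [this, Derivation.map_algebraMap]
  | add p q hp hq => simp only [map_add, hp, hq]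
  | mul_X p j hp =>
    have h1 := hD i j
    unfold xv at h1
    rw [map_mul, Derivation.leibniz, hp, h1, pderiv_mul, pderiv_X, map_add, map_mul, map_mul]
    simp only [smul_eq_mul, Pi.single_apply]
    by_cases h : i = j
    · subst h
      simp
      ring
    · simp [h, Ne.symm h]
      ring

lemma fermat_ne_zero [CharZero k] (hm : 1 ≤ m) (n : ℕ) : fermat k m n ≠ 0 := by
  intro h
  have h1 := congrArg (eval (fun _ => (1 : k))) h
  simp only [fermat, map_sum, map_pow, eval_X, one_pow, Finset.sum_const, Finset.card_univ,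
    Fintype.card_fin, map_zero, nsmul_eq_mul, mul_one] at h1
  have : m = 0 := by exact_mod_cast h1
  omega

/-- the sum of the `n`-th powers of the variables, as a rational function -/
noncomputable def QQ (k : Type u) [Field k] (m n : ℕ) : RF k m := ∑ i, xv k m i ^ n

lemma QQ_eq (n : ℕ) : QQ k m n = algebraMap _ (RF k m) (fermat k m n) := by
  unfold QQ fermat xv
  rw [map_sum]
  exact Finset.sum_congr rfl fun i _ => (map_pow _ _ _).symm

include hD in
theorem not_integrable [CharZero k] (hm : 1 ≤ m) (u : Fin m → RF k m)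
    (h : 1 / QQ k m m = ∑ i, D i (u i)) : False := by
  obtain ⟨b, hb⟩ := IsLocalization.exist_integer_multiples_of_finite
    (nonZeroDivisors (MvPolynomial (Fin m) k)) u
  choose P hP using hb
  have hR : (b : MvPolynomial (Fin m) k) ≠ 0 := nonZeroDivisors.coe_ne_zero b
  obtain ⟨R, hRdef⟩ : ∃ R : MvPolynomial (Fin m) k, R = (b : MvPolynomial (Fin m) k) := ⟨_, rfl⟩
  rw [← hRdef] at hR
  have hP' : ∀ i, algebraMap _ (RF k m) (P i) = algebraMap _ (RF k m) R * u i := by
    intro i
    rw [hP i, hRdef, Algebra.smul_def]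
  have hQ : QQ k m m ≠ 0 := by
    rw [QQ_eq]
    intro h0
    exact fermat_ne_zero hm m ((map_eq_zero_iff _ (IsFractionRing.injective _ _)).1 h0)
  refine char_zero_main hm P R hR ?_
  apply IsFractionRing.injective (MvPolynomial (Fin m) k) (RF k m)
  have h1 : ∀ i, algebraMap _ (RF k m) R ^ 2 * D i (u i) =
      algebraMap _ (RF k m) (pderiv i (P i) * R - P i * pderiv i R) := by
    intro i
    have h2 := congrArg (D i) (hP' i)
    rw [D_algebraMap hD, Derivation.leibniz, D_algebraMap hD, smul_eq_mul, smul_eq_mul] at h2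
    rw [map_sub, map_mul, map_mul, h2, hP' i]
    ring
  rw [map_pow, map_mul, map_sum, ← QQ_eq, ← Finset.sum_congr rfl fun i _ => h1 i,
    ← Finset.mul_sum, ← h]
  field_simp

include hD in
theorem integrable [CharZero k] (n : ℕ) (hn : n ≠ m) :
    ∃ u : Fin m → RF k m, 1 / QQ k m n = ∑ i, D i (u i) := by
  have hc : ((m : k) - n) ≠ 0 := by
    rw [sub_ne_zero]
    exact_mod_cast hn.symm
  refine ⟨fun i => ((m : k) - n)⁻¹ • (xv k m i * (QQ k m n)⁻¹), ?_⟩
  by_cases hQ : QQ k m n = 0
  · simp [hQ]
  have hDQ : ∀ i, D i (QQ k m n) = n * xv k m i ^ (n - 1) := by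
    intro i
    unfold QQ
    rw [map_sum, Finset.sum_eq_single i]
    · rw [Derivation.leibniz_pow, hD, if_pos rfl]
      simp
    · intro j _ hj
      rw [Derivation.leibniz_pow, hD, if_neg (Ne.symm hj)]
      simp
    · simp
  have h1 : ∀ i, D i (((m : k) - n)⁻¹ • (xv k m i * (QQ k m n)⁻¹)) =
      ((m : k) - n)⁻¹ • ((QQ k m n)⁻¹ - n * xv k m i ^ n * (QQ k m n)⁻¹ ^ 2) := by
    intro i
    rw [Derivation.map_smul, Derivation.leibniz, Derivation.leibniz_inv, hDQ, hD, if_pos rfl]
    congr 1
    simp only [smul_eq_mul]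
    rcases Nat.eq_zero_or_pos n with h0 | h0
    · subst h0; simp
    · obtain ⟨t, rfl⟩ : ∃ t, n = t + 1 := ⟨n - 1, by omega⟩
      rw [Nat.add_sub_cancel]
      ring
  rw [Finset.sum_congr rfl fun i _ => h1 i, ← Finset.smul_sum, Finset.sum_sub_distrib]
  have h2 : ∑ i, (n : RF k m) * xv k m i ^ n * (QQ k m n)⁻¹ ^ 2 = n * (QQ k m n)⁻¹ := by
    rw [← Finset.sum_mul, ← Finset.mul_sum]
    change (n : RF k m) * QQ k m n * (QQ k m n)⁻¹ ^ 2 = n * (QQ k m n)⁻¹
    field_simp
  rw [h2, Finset.sum_const, Finset.card_univ, Fintype.card_fin, nsmul_eq_mul, ← sub_mul,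
    Algebra.smul_def]
  have h3 : algebraMap k (RF k m) ((m : k) - n)⁻¹ * ((m : RF k m) - n) = 1 := by
    have h4 : ((m : RF k m) - n) = algebraMap k (RF k m) ((m : k) - n) := by simp
    rw [h4, ← map_mul, inv_mul_cancel₀ hc, map_one]
  rw [← mul_assoc, h3]
  simp

end field

end Pool.Agent.Q84.Fermat
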